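import Pool.Agent.J4H50.YJ.Cy

set_option autoImplicit false
set_option linter.unusedSectionVars false

/-! # Project YJ, (C2): the arcs outside of the cone, at its smooth points and at its singular points -/

namespace Pool.Agent.J4H55.YJ.Two

open MvPolynomial
open Pool.Agent.W428.MOT
open Pool.Agent.J4H50.YJ

section Alg

theorem sum0 {E : Type} [Field E] (G : ℕ → PowerSeries E) (D d i : ℕ) (hi : 1 ≤ i)
    (h1 : ∀ j < d, PowerSeries.coeff 0 (G j) = 0) (h2 : D < d → PowerSeries.coeff 0 (G d) = 0) :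
    PowerSeries.coeff 0 (∑ j ∈ Finset.range (D + 1), PowerSeries.X ^ (i * (j - d)) * G j) =
      PowerSeries.coeff 0 (G d) := by
  simp only [PowerSeries.coeff_zero_eq_constantCoeff_apply] at h1 h2 ⊢
  rw [map_sum]
  by_cases hd : d < D + 1
  · rw [Finset.sum_eq_single d]
    · rw [Nat.sub_self, mul_zero, pow_zero, one_mul]
    · intro j _ hj
      rcases Nat.lt_or_ge j d with h | h
      · rw [map_mul, h1 j h, mul_zero]
      · have h3 : i * (j - d) ≠ 0 := Nat.mul_ne_zero (by omega) (by omega)
        rw [map_mul, map_pow, PowerSeries.constantCoeff_X, zero_pow h3, zero_mul]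
    · intro h
      exact absurd (Finset.mem_range.2 hd) h
  · rw [h2 (by omega)]
    refine Finset.sum_eq_zero fun j hj => ?_
    have h3 := Finset.mem_range.1 hj
    rw [map_mul, h1 j (by omega), mul_zero]

variable {K : Type} [Field K] {σ : Type}

theorem c0 (ξ : Ac K σ) (f : MvPolynomial σ K) :
    PowerSeries.coeff 0 (aeval ξ f) = aeval (fun i => PowerSeries.coeff 0 (ξ i)) f := by
  induction f using MvPolynomial.induction_on with
  | C a => rw [algHom_C, algHom_C, PowerSeries.algebraMap_apply, PowerSeries.coeff_zero_C]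
  | add p q hp hq => rw [map_add, map_add, map_add, hp, hq]
  | mul_X p i hp =>
    rw [map_mul (aeval ξ), aeval_X, map_mul (aeval _), aeval_X, ← hp]
    simp only [PowerSeries.coeff_zero_eq_constantCoeff_apply, map_mul]

theorem c0Q (F : MvPolynomial σ K) (d i : ℕ) (hi : 1 ≤ i) (hF : ∀ j < d, homogeneousComponent j F = 0)
    (ξ : Ac K σ) : PowerSeries.coeff 0 (Qm F d i ξ) =
      aeval (fun i => PowerSeries.coeff 0 (ξ i)) (homogeneousComponent d F) := by
  rw [← c0]
  refine sum0 (fun j => aeval ξ (homogeneousComponent j F)) F.totalDegree d i hi ?_ ?_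
  · intro j hj
    show PowerSeries.coeff 0 (aeval ξ (homogeneousComponent j F)) = 0
    rw [hF j hj, map_zero, map_zero]
  · intro h
    show PowerSeries.coeff 0 (aeval ξ (homogeneousComponent d F)) = 0
    rw [homogeneousComponent_eq_zero _ _ h, map_zero, map_zero]

theorem tay [DecidableEq σ] (ξ : Ac K σ) (l : σ) (m : ℕ) (hm : 1 ≤ m) (c : AlgebraicClosure K)
    (f : MvPolynomial σ K) : ∃ E : PowerSeries (AlgebraicClosure K),
      aeval (Function.update ξ l (ξ l + PowerSeries.monomial m c)) f =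
        aeval ξ f + PowerSeries.X ^ m * E ∧
      PowerSeries.coeff 0 E = c * aeval (fun i => PowerSeries.coeff 0 (ξ i)) (pderiv l f) := by
  induction f using MvPolynomial.induction_on with
  | C a =>
    refine ⟨0, ?_, ?_⟩
    · rw [algHom_C, algHom_C, mul_zero, add_zero]
    · rw [pderiv_C, map_zero, map_zero, mul_zero]
  | add p q hp hq =>
    obtain ⟨E1, h1, h2⟩ := hp
    obtain ⟨E2, h3, h4⟩ := hq
    refine ⟨E1 + E2, ?_, ?_⟩
    · rw [map_add, map_add, h1, h3]
      ring
    · rw [map_add, map_add, map_add, h2, h4]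
      ring
  | mul_X p i hp =>
    obtain ⟨E, h1, h2⟩ := hp
    have hmon : (PowerSeries.monomial m c : PowerSeries (AlgebraicClosure K)) =
        PowerSeries.X ^ m * PowerSeries.C c := by
      rw [PowerSeries.monomial_eq_mk, ← PowerSeries.monomial_eq_mk]
      ext n
      rw [PowerSeries.coeff_X_pow_mul', PowerSeries.coeff_monomial]
      split_ifs with h3 h4 h4
      · rw [h3, Nat.sub_self, PowerSeries.coeff_zero_C]
      · omega
      · rw [PowerSeries.coeff_C, if_neg (by omega)]
      · rfl
    have hX : PowerSeries.constantCoeff (PowerSeries.X ^ m : PowerSeries (AlgebraicClosure K)) = 0 := by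
      rw [map_pow, PowerSeries.constantCoeff_X, zero_pow (by omega)]
    by_cases hil : i = l
    · subst hil
      refine ⟨E * ξ i + PowerSeries.C c * aeval ξ p + PowerSeries.X ^ m * (E * PowerSeries.C c), ?_, ?_⟩
      · rw [map_mul, map_mul, aeval_X, aeval_X, h1, Function.update_self, hmon]
        ring
      · have e : aeval (fun i => PowerSeries.coeff 0 (ξ i)) (pderiv i p * X i + p) =
            aeval (fun i => PowerSeries.coeff 0 (ξ i)) (pderiv i p) * PowerSeries.coeff 0 (ξ i) +
              aeval (fun i => PowerSeries.coeff 0 (ξ i)) p := by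
          rw [map_add, map_mul, aeval_X]
        rw [pderiv_mul, pderiv_X_self, mul_one, e, ← c0 ξ p]
        simp only [PowerSeries.coeff_zero_eq_constantCoeff_apply, map_add, map_mul, hX,
          PowerSeries.constantCoeff_C] at h2 ⊢
        rw [h2]
        ring
    · refine ⟨E * ξ i, ?_, ?_⟩
      · rw [map_mul, map_mul, aeval_X, aeval_X, h1, Function.update_of_ne hil]
        ring
      · have e : aeval (fun i => PowerSeries.coeff 0 (ξ i)) (pderiv l p * X i) =
            aeval (fun i => PowerSeries.coeff 0 (ξ i)) (pderiv l p) * PowerSeries.coeff 0 (ξ i) := by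
          rw [map_mul, aeval_X]
        rw [pderiv_mul, pderiv_X_of_ne hil, mul_zero, add_zero, e]
        simp only [PowerSeries.coeff_zero_eq_constantCoeff_apply, map_mul] at h2 ⊢
        rw [h2]
        ring

theorem tayQ [DecidableEq σ] (F : MvPolynomial σ K) (d i : ℕ) (hi : 1 ≤ i)
    (hF : ∀ j < d, homogeneousComponent j F = 0) (ξ : Ac K σ) (l : σ) (m : ℕ) (hm : 1 ≤ m)
    (c : AlgebraicClosure K) : ∃ E : PowerSeries (AlgebraicClosure K),
      Qm F d i (Function.update ξ l (ξ l + PowerSeries.monomial m c)) =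
        Qm F d i ξ + PowerSeries.X ^ m * E ∧
      PowerSeries.coeff 0 E =
        c * aeval (fun i => PowerSeries.coeff 0 (ξ i)) (pderiv l (homogeneousComponent d F)) := by
  choose G hG1 hG2 using fun j => tay ξ l m hm c (homogeneousComponent j F)
  refine ⟨∑ j ∈ Finset.range (F.totalDegree + 1), PowerSeries.X ^ (i * (j - d)) * G j, ?_, ?_⟩
  · unfold Qm
    rw [Finset.mul_sum, ← Finset.sum_add_distrib]
    refine Finset.sum_congr rfl fun j _ => ?_
    rw [hG1]
    ring
  · rw [sum0 G _ d i hi ?_ ?_, hG2]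
    · intro j hj
      rw [hG2, hF j hj, map_zero, map_zero, mul_zero]
    · intro h
      rw [hG2, homogeneousComponent_eq_zero _ _ h, map_zero, map_zero, mul_zero]

end Alg

section Vol

variable {K : Type} [Field K] {R : Type} [CommRing R] (M : Meas K R) (v : R) (hv : M.L * v = 1) (hB : Bas)
variable {σ : Type} [Fintype σ] [DecidableEq σ]

/-- the points of the cone where `∂_l f` is the first derivative which does not vanish -/
def YL (f : MvPolynomial σ K) (l : σ) : Set (Pt K σ) :=
  {x | aeval x f = 0 ∧ aeval x (pderiv l f) ≠ 0 ∧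
    ∀ l', Fintype.equivFin σ l' < Fintype.equivFin σ l → aeval x (pderiv l' f) = 0}

theorem constr_YL (f : MvPolynomial σ K) (l : σ) : Constr (YL f l) :=
  (Constr.zero f).and ((Constr.not (Constr.zero (pderiv l f))).and
    (Constr.all fun l' => Constr.imp' fun _ => Constr.zero (pderiv l' f)))

theorem constr_YY (f : MvPolynomial σ K) : Constr (YY f) :=
  (Constr.zero f).and (Constr.ex fun l => Constr.not (Constr.zero (pderiv l f)))

theorem constr_UU (f : MvPolynomial σ K) : Constr (UU f) := Constr.not (Constr.zero f)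

theorem YY_eq (f : MvPolynomial σ K) (x : Pt K σ) : x ∈ YY f ↔ ∃ l, x ∈ YL f l := by
  constructor
  · rintro ⟨h1, h2⟩
    classical
    have h3 : ((Finset.univ : Finset σ).filter fun l => aeval x (pderiv l f) ≠ 0).Nonempty := by
      obtain ⟨l, hl⟩ := h2
      exact ⟨l, Finset.mem_filter.2 ⟨Finset.mem_univ _, hl⟩⟩
    obtain ⟨l, hl, hmin⟩ := Finset.exists_min_image _ (fun l => Fintype.equivFin σ l) h3
    refine ⟨l, h1, (Finset.mem_filter.1 hl).2, fun l' hl' => ?_⟩
    by_contra h4
    exact absurd (hmin l' (Finset.mem_filter.2 ⟨Finset.mem_univ _, h4⟩)) (not_le.2 hl')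
  · rintro ⟨l, h1, h2, -⟩
    exact ⟨h1, l, h2⟩

theorem YL_disj (f : MvPolynomial σ K) {l l' : σ} (h : l ≠ l') (x : Pt K σ) (h1 : x ∈ YL f l)
    (h2 : x ∈ YL f l') : False := by
  rcases lt_trichotomy (Fintype.equivFin σ l) (Fintype.equivFin σ l') with h3 | h3 | h3
  · exact h1.2.1 (h2.2.2 l h3)
  · exact h ((Fintype.equivFin σ).injective h3)
  · exact h2.2.1 (h1.2.2 l' h3)

variable (F : MvPolynomial σ K) (d i : ℕ)

/-- the first `k` coefficients vanish -/
def ZZ (l : σ) (k : ℕ) : Set (Ac K σ) :=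
  {ξ | (fun r => PowerSeries.coeff 0 (ξ r)) ∈ YL (homogeneousComponent d F) l ∧
    ∀ m < k, PowerSeries.coeff m (Qm F d i ξ) = 0}

include hv hB in
theorem cyl_ZZ (l : σ) (k : ℕ) : IsCyl (ZZ F d i l k) := by
  have hops := cyl_ops (σ := σ) M v hv hB.v1
  have h1 := ((hB.cc (K := K) (σ := σ)).2 _ (constr_YL (homogeneousComponent d F) l)).1
  have h2 := cyl_finInter M v hv hB.v1 (Finset.range k)
    (fun m => {x : Ac K σ | PowerSeries.coeff m (ev x (qp F d i)) = 0})
    (fun m _ => (hB.cc (K := K) (σ := σ)).1 _ _)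
  have h3 := hops.2.1 _ _ h1 h2
  have e : {x : Ac K σ | (fun i => PowerSeries.coeff 0 (x i)) ∈ YL (homogeneousComponent d F) l} ∩
      {x | ∀ a ∈ Finset.range k, x ∈ {x : Ac K σ | PowerSeries.coeff a (ev x (qp F d i)) = 0}} =
      ZZ F d i l k := by
    ext x
    simp only [Set.mem_inter_iff, Set.mem_ofPred_eq, Finset.mem_range, ← Qm_ev, ZZ]
  rwa [e] at h3

variable (hi : 1 ≤ i) (hF : ∀ j < d, homogeneousComponent j F = 0)

include hv hB hi hF in
theorem vol_ZZ (l : σ) (k : ℕ) : vol M v (ZZ F d i l (k + 1)) = v ^ k *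
    vol M v {x : Ac K σ | (fun i => PowerSeries.coeff 0 (x i)) ∈ YL (homogeneousComponent d F) l} := by
  induction k with
  | zero =>
    rw [pow_zero, one_mul]
    congr 1
    ext ξ
    constructor
    · rintro ⟨h1, -⟩
      exact h1
    · intro h1
      refine ⟨h1, fun m hm => ?_⟩
      have hm0 : m = 0 := by omega
      subst hm0
      rw [c0Q F d i hi hF]
      exact h1.1
  | succ k ih =>
    have h := hB.lin M v hv (ZZ F d i l (k + 1)) (cyl_ZZ M v hv hB F d i l (k + 1)) l (k + 1) (k + 1)
      (qp F d i) (pderiv l (homogeneousComponent d F)) (by omega) (fun x hx => hx.1.2.1) ?_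
    · have e : ZZ F d i l (k + 1) ∩ {x | PowerSeries.coeff (k + 1) (ev x (qp F d i)) = 0} =
          ZZ F d i l (k + 1 + 1) := by
        ext x
        constructor
        · rintro ⟨⟨h1, h2⟩, h3⟩
          refine ⟨h1, fun m hm => ?_⟩
          rcases Nat.lt_or_ge m (k + 1) with h4 | h4
          · exact h2 m h4
          · have : m = k + 1 := by omega
            subst this
            rw [Qm_ev]
            exact h3
        · rintro ⟨h1, h2⟩
          refine ⟨⟨h1, fun m hm => h2 m (by omega)⟩, ?_⟩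
          have h3 := h2 (k + 1) (by omega)
          rw [Qm_ev] at h3
          exact h3
      rw [← e, h, ih, pow_succ]
      ring
    · intro x hx c
      obtain ⟨E, h1, h2⟩ := tayQ F d i hi hF x l (k + 1) (by omega) c
      have h0 : (fun r => PowerSeries.coeff 0
          (Function.update x l (x l + PowerSeries.monomial (k + 1) c) r)) =
          fun r => PowerSeries.coeff 0 (x r) := by
        funext r
        by_cases hr : r = l
        · subst hr
          rw [Function.update_self, map_add, PowerSeries.coeff_monomial, if_neg (by omega), add_zero]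
        · rw [Function.update_of_ne hr]
      refine ⟨⟨?_, fun m hm => ?_⟩, ?_⟩
      · rw [h0]
        exact hx.1
      · rw [h1, map_add, hx.2 m hm, zero_add, PowerSeries.coeff_X_pow_mul', if_neg (by omega)]
      · rw [← Qm_ev, ← Qm_ev, h1, map_add, PowerSeries.coeff_X_pow_mul', if_pos le_rfl, Nat.sub_self, h2]

include hv hB hi hF in
theorem vol_WW (l : σ) (j : ℕ) (hj : 1 ≤ j) :
    IsCyl {ξ : Ac K σ | (fun i => PowerSeries.coeff 0 (ξ i)) ∈ YL (homogeneousComponent d F) l ∧
      Od (Qm F d i ξ) j} ∧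
    vol M v {ξ : Ac K σ | (fun i => PowerSeries.coeff 0 (ξ i)) ∈ YL (homogeneousComponent d F) l ∧
      Od (Qm F d i ξ) j} = (1 - v) * v ^ (j - 1) *
      vol M v {x : Ac K σ | (fun i => PowerSeries.coeff 0 (x i)) ∈ YL (homogeneousComponent d F) l} := by
  have e : {ξ : Ac K σ | (fun i => PowerSeries.coeff 0 (ξ i)) ∈ YL (homogeneousComponent d F) l ∧
      Od (Qm F d i ξ) j} = {x | x ∈ ZZ F d i l j ∧ x ∉ ZZ F d i l (j + 1)} := by
    ext x
    constructor
    · rintro ⟨h1, h2, h3⟩
      exact ⟨⟨h1, h2⟩, fun h4 => h3 (h4.2 j (by omega))⟩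
    · rintro ⟨⟨h1, h2⟩, h3⟩
      refine ⟨h1, h2, fun h4 => h3 ⟨h1, fun m hm => ?_⟩⟩
      rcases Nat.lt_or_ge m j with h5 | h5
      · exact h2 m h5
      · have : m = j := by omega
        rw [this]
        exact h4
  have hc := cyl_ZZ M v hv hB F d i l
  refine ⟨?_, ?_⟩
  · rw [e]
    exact (cyl_ops M v hv hB.v1).2.1 _ _ (hc j) ((cyl_ops M v hv hB.v1).1 _ (hc (j + 1)))
  · rw [e, vol_diff M v hv hB.v1 _ _ (hc j) (hc (j + 1))
      (fun x hx => ⟨hx.1, fun m hm => hx.2 m (by omega)⟩)]
    obtain ⟨j, rfl⟩ : ∃ j', j = j' + 1 := ⟨j - 1, by omega⟩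
    rw [vol_ZZ M v hv hB F d i hi hF l j, vol_ZZ M v hv hB F d i hi hF l (j + 1), Nat.add_sub_cancel,
      pow_succ]
    ring

include hv hB in
theorem cyl_LP (P : σ → K) (hP : P ≠ 0) : IsCyl (LP P) := by
  obtain ⟨i₀, hPi⟩ : ∃ i₀, P i₀ ≠ 0 := by
    by_contra h
    push Not at h
    exact hP (funext h)
  have hKb : algebraMap K (AlgebraicClosure K) (P i₀) ≠ 0 := fun h => hPi ((map_eq_zero _).1 h)
  have hops := cyl_ops (σ := σ) M v hv hB.v1
  have h1 : IsCyl {x : Ac K σ | PowerSeries.coeff 0 (x i₀) = 0} := cyl_coord hB.cc _ _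
  have h2 := cyl_finInter M v hv hB.v1 (Finset.univ : Finset σ)
    (fun s => {x : Ac K σ | PowerSeries.coeff 0 (aeval x (X s * C (P i₀) - X i₀ * C (P s) : MvPolynomial σ K)) = 0})
    (fun s _ => cyl_coeff hB.cc _ _)
  have h4 := hops.2.1 _ _ (hops.1 _ h1) h2
  have e : {x : Ac K σ | PowerSeries.coeff 0 (x i₀) = 0}ᶜ ∩
      {x | ∀ s ∈ (Finset.univ : Finset σ), x ∈ {x : Ac K σ | PowerSeries.coeff 0
        (aeval x (X s * C (P i₀) - X i₀ * C (P s) : MvPolynomial σ K)) = 0}} = LP P := by
    have hcomp : ∀ (x : Ac K σ) (s : σ), PowerSeries.coeff 0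
        (aeval x (X s * C (P i₀) - X i₀ * C (P s) : MvPolynomial σ K)) =
        PowerSeries.coeff 0 (x s) * algebraMap K (AlgebraicClosure K) (P i₀) -
          PowerSeries.coeff 0 (x i₀) * algebraMap K (AlgebraicClosure K) (P s) := by
      intro x s
      rw [map_sub, map_mul, map_mul, aeval_X, aeval_X, algHom_C, algHom_C]
      simp [PowerSeries.algebraMap_apply]
    ext x
    simp only [Set.mem_inter_iff, Set.mem_compl_iff, Set.mem_ofPred_eq, Finset.mem_univ, forall_const, hcomp, LP, gp]
    constructor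
    · rintro ⟨h5, h6⟩
      refine ⟨PowerSeries.coeff 0 (x i₀) / algebraMap K (AlgebraicClosure K) (P i₀), div_ne_zero h5 hKb, fun r => ?_⟩
      have h7 := sub_eq_zero.1 (h6 r)
      rw [div_mul_eq_mul_div, eq_div_iff hKb, h7]
    · rintro ⟨c, hc, h5⟩
      refine ⟨?_, fun s => ?_⟩
      · rw [h5 i₀]
        exact mul_ne_zero hc hKb
      · rw [h5 s, h5 i₀]
        ring
  rwa [e] at h4

end Vol

theorem LP_disj {K : Type} [Field K] {σ : Type} (P Q : σ → K) (hQ : Q ≠ 0)
    (h : ∀ c : K, P ≠ c • Q) : Disjoint (LP P) (LP Q) := by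
  rw [Set.disjoint_left]
  rintro ξ ⟨c, hc, h1⟩ ⟨c', hc', h2⟩
  obtain ⟨a, ha⟩ : ∃ a, Q a ≠ 0 := by
    by_contra h
    push Not at h
    exact hQ (funext h)
  have ha' : algebraMap K (AlgebraicClosure K) (Q a) ≠ 0 := fun h => ha ((map_eq_zero _).1 h)
  have h3 : ∀ r, c * algebraMap K (AlgebraicClosure K) (P r) = c' * algebraMap K (AlgebraicClosure K) (Q r) :=
    fun r => by
      have h4 := h1 r
      rw [h2 r] at h4
      exact h4.symm
  refine h (P a / Q a) (funext fun r => (algebraMap K (AlgebraicClosure K)).injective ?_)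
  rw [Pi.smul_apply, smul_eq_mul, map_mul, map_div₀]
  rw [div_mul_eq_mul_div, eq_div_iff ha']
  refine mul_left_cancel₀ (mul_ne_zero hc hc') ?_
  linear_combination c' * algebraMap K (AlgebraicClosure K) (Q a) * h3 r -
    c' * algebraMap K (AlgebraicClosure K) (Q r) * h3 a

theorem hom_zero {K : Type} [Field K] {σ : Type} (f : MvPolynomial σ K) (k : ℕ) (hk : 1 ≤ k)
    (hf : f.IsHomogeneous k) : aeval (0 : Pt K σ) f = 0 := by
  have h1 : aeval (0 : Pt K σ) f = algebraMap K (AlgebraicClosure K) (constantCoeff f) := by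
    rw [MvPolynomial.aeval_zero]
  rw [h1]
  have h2 : constantCoeff f = 0 := by
    rw [constantCoeff_eq]
    by_contra h3
    have h4 := hf h3
    simp at h4
    omega
  rw [h2, map_zero]

theorem aeval_gp {K : Type} [Field K] {σ : Type} (P : σ → K) (f : MvPolynomial σ K) :
    aeval (gp P) f = algebraMap K (AlgebraicClosure K) (eval P f) := by
  induction f using MvPolynomial.induction_on with
  | C a => rw [algHom_C, eval_C]
  | add p q hp hq => rw [map_add, map_add, map_add, hp, hq]
  | mul_X p i hp => rw [map_mul, map_mul, map_mul, aeval_X, eval_X, hp]; rfl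

/-- homogeneity -/
theorem aeval_hom {K : Type} [Field K] {σ : Type} {B : Type} [CommRing B] [Algebra K B]
    (f : MvPolynomial σ K) (k : ℕ) (hf : f.IsHomogeneous k) (c : B) (y : σ → B) :
    aeval (fun i => c * y i) f = c ^ k * aeval y f := by
  rw [aeval_def, aeval_def, eval₂_eq, eval₂_eq, Finset.mul_sum]
  refine Finset.sum_congr rfl fun m hm => ?_
  have h1 : ∑ i ∈ m.support, m i = k := by
    have h2 := hf (mem_support_iff.1 hm)
    rw [← h2, Finsupp.weight_apply, Finsupp.sum]
    simp
  rw [show (∏ i ∈ m.support, (c * y i) ^ m i) = c ^ k * ∏ i ∈ m.support, y i ^ m i from ?_]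
  · ring
  · rw [← h1, ← Finset.prod_pow_eq_pow_sum, ← Finset.prod_mul_distrib]
    exact Finset.prod_congr rfl fun i _ => mul_pow _ _ _

theorem t_C2 : Bas → S_C2 := by
  intro hB K _ _ R _ M v hv σ ι _ _ F d hd hF P hP i hi
  classical
  have hops := cyl_ops (σ := σ) M v hv hB.v1
  have hfh : (homogeneousComponent d F).IsHomogeneous d := homogeneousComponent_isHomogeneous d F
  refine ⟨?_, fun j hj => ?_⟩
  · -- outside of the cone
    have h1 := ((hB.cc (K := K) (σ := σ)).2 _ (constr_UU (homogeneousComponent d F))).2 M v hv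
    rw [← h1]
    congr 1
    ext ξ
    constructor
    · rintro ⟨-, h2⟩
      have h3 := h2.2
      rw [c0Q F d i hi hF] at h3
      exact h3
    · intro h2
      refine ⟨?_, fun j hj => absurd hj (by omega), ?_⟩
      · by_contra h3
        push Not at h3
        have h4 : (fun i => PowerSeries.coeff 0 (ξ i)) = (0 : Pt K σ) := funext h3
        have h5 : aeval (fun i => PowerSeries.coeff 0 (ξ i)) (homogeneousComponent d F) ≠ 0 := h2
        rw [h4, hom_zero _ d (by omega) hfh] at h5
        exact h5 rfl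
      · rw [c0Q F d i hi hF]
        exact h2
  · -- the cone
    have hW := vol_WW M v hv hB F d i hi hF
    have hYd : ∀ a ∈ (Finset.univ : Finset σ), ∀ b ∈ (Finset.univ : Finset σ), a ≠ b →
        Disjoint {ξ : Ac K σ | (fun i => PowerSeries.coeff 0 (ξ i)) ∈ YL (homogeneousComponent d F) a}
          {ξ : Ac K σ | (fun i => PowerSeries.coeff 0 (ξ i)) ∈ YL (homogeneousComponent d F) b} := by
      intro a _ b _ hab
      rw [Set.disjoint_left]
      intro x h1 h2
      exact YL_disj _ hab _ h1 h2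
    have hYs := vol_finUnion M v hv hB.v1 (Finset.univ : Finset σ)
      (fun l => {ξ : Ac K σ | (fun i => PowerSeries.coeff 0 (ξ i)) ∈ YL (homogeneousComponent d F) l})
      (fun l _ => ((hB.cc (K := K) (σ := σ)).2 _ (constr_YL (homogeneousComponent d F) l)).1) hYd
    have hY : vol M v {ξ : Ac K σ | ∃ a ∈ (Finset.univ : Finset σ), ξ ∈
        {ξ : Ac K σ | (fun i => PowerSeries.coeff 0 (ξ i)) ∈ YL (homogeneousComponent d F) a}} =
        M.χ σ (YY (homogeneousComponent d F)) * v ^ Fintype.card σ := by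
      rw [← ((hB.cc (K := K) (σ := σ)).2 _ (constr_YY (homogeneousComponent d F))).2 M v hv]
      congr 1
      ext ξ
      simp only [Set.mem_ofPred_eq, Finset.mem_univ, true_and]
      exact (YY_eq (homogeneousComponent d F) _).symm
    rw [← hY, hYs]
    have hWs := vol_finUnion M v hv hB.v1 (Finset.univ : Finset σ)
      (fun l => {ξ : Ac K σ | (fun i => PowerSeries.coeff 0 (ξ i)) ∈ YL (homogeneousComponent d F) l ∧
        Od (Qm F d i ξ) j}) (fun l _ => (hW l j hj).1) (by
          intro a _ b _ hab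
          rw [Set.disjoint_left]
          intro x h1 h2
          exact YL_disj _ hab _ h1.1 h2.1)
    have hcL : ∀ r : ι, IsCyl (LP (P r) ∩ {ξ : Ac K σ | Od (Qm F d i ξ) j}) := fun r =>
      hops.2.1 _ _ (cyl_LP M v hv hB (P r) (hP.ne r)) (cyl_Qm M v hv hB.v1 hB.cc F d i j)
    have hLs := vol_finUnion M v hv hB.v1 (Finset.univ : Finset ι)
      (fun r => LP (P r) ∩ {ξ : Ac K σ | Od (Qm F d i ξ) j}) (fun r _ => hcL r) (by
        intro a _ b _ hab
        exact (LP_disj (P a) (P b) (hP.ne b) (hP.inj a b hab)).mono Set.inter_subset_left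
          Set.inter_subset_left)
    have hc1 := cyl_finUnion M v hv hB.v1 (Finset.univ : Finset σ)
      (fun l => {ξ : Ac K σ | (fun i => PowerSeries.coeff 0 (ξ i)) ∈ YL (homogeneousComponent d F) l ∧
        Od (Qm F d i ξ) j}) (fun l _ => (hW l j hj).1)
    have hc2 := cyl_finUnion M v hv hB.v1 (Finset.univ : Finset ι)
      (fun r => LP (P r) ∩ {ξ : Ac K σ | Od (Qm F d i ξ) j}) (fun r _ => hcL r)
    -- the derivatives vanish on the lines
    have hline : ∀ (r : ι) (c : AlgebraicClosure K) (l : σ),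
        aeval (fun a => c * gp (P r) a) (pderiv l (homogeneousComponent d F)) = 0 := by
      intro r c l
      have h1 : (pderiv l (homogeneousComponent d F)).IsHomogeneous (d - 1) := hfh.pderiv
      have h2 : aeval (gp (P r)) (pderiv l (homogeneousComponent d F)) = 0 := by
        have h3 := hP.sing r l
        have h4 : aeval (gp (P r)) (pderiv l (homogeneousComponent d F)) =
            algebraMap K (AlgebraicClosure K) (eval (P r) (pderiv l (homogeneousComponent d F))) := by
          exact aeval_gp (P r) _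
        rw [h4, h3, map_zero]
      have h5 : aeval (fun a => c * gp (P r) a) (pderiv l (homogeneousComponent d F)) =
          c ^ (d - 1) * aeval (gp (P r)) (pderiv l (homogeneousComponent d F)) :=
        aeval_hom _ _ h1 c (gp (P r))
      rw [h5, h2, mul_zero]
    have hU := (hB.v1 M v hv (σ := σ)).2.2.1 _ _ hc1 hc2 (by
      rw [Set.disjoint_left]
      rintro ξ ⟨l, -, h1, -⟩ ⟨r, -, ⟨c, hc, h2⟩, -⟩
      refine h1.2.1 ?_
      rw [show (fun i => PowerSeries.coeff 0 (ξ i)) = fun a => c * gp (P r) a from funext h2]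
      exact hline r c l)
    rw [hWs, hLs] at hU
    have e : {ξ : Ac K σ | (∃ r, PowerSeries.coeff 0 (ξ r) ≠ 0) ∧ Od (Qm F d i ξ) j} =
        {x | ∃ a ∈ (Finset.univ : Finset σ), x ∈
          {ξ : Ac K σ | (fun i => PowerSeries.coeff 0 (ξ i)) ∈ YL (homogeneousComponent d F) a ∧
            Od (Qm F d i ξ) j}} ∪
        {x | ∃ a ∈ (Finset.univ : Finset ι), x ∈ LP (P a) ∩ {ξ : Ac K σ | Od (Qm F d i ξ) j}} := by
      ext ξ
      constructor
      · rintro ⟨⟨r, hr⟩, h1⟩
        have h2 : aeval (fun i => PowerSeries.coeff 0 (ξ i)) (homogeneousComponent d F) = 0 := by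
          rw [← c0Q F d i hi hF]
          exact h1.1 0 (by omega)
        by_cases h3 : ∃ l, aeval (fun i => PowerSeries.coeff 0 (ξ i))
            (pderiv l (homogeneousComponent d F)) ≠ 0
        · obtain ⟨l, hl⟩ := (YY_eq (homogeneousComponent d F) _).1 ⟨h2, h3⟩
          exact Or.inl ⟨l, Finset.mem_univ _, hl, h1⟩
        · push Not at h3
          obtain ⟨s, c, h4⟩ := hP.all (fun i => PowerSeries.coeff 0 (ξ i))
            (fun h => hr (congrFun h r)) h3
          refine Or.inr ⟨s, Finset.mem_univ _, ⟨c, ?_, fun r => congrFun h4 r⟩, h1⟩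
          rintro rfl
          apply hr
          have h5 := congrFun h4 r
          rw [zero_mul] at h5
          exact h5
      · rintro (⟨l, -, h1, h2⟩ | ⟨s, -, ⟨c, hc, h1⟩, h2⟩)
        · refine ⟨?_, h2⟩
          by_contra h3
          push Not at h3
          have h4 : (fun i => PowerSeries.coeff 0 (ξ i)) = (0 : Pt K σ) := funext h3
          have h5 := h1.2.1
          rw [h4] at h5
          exact h5 (hom_zero _ (d - 1) (by omega) hfh.pderiv)
        · refine ⟨?_, h2⟩
          obtain ⟨a, ha⟩ : ∃ a, P s a ≠ 0 := by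
            by_contra h
            push Not at h
            exact hP.ne s (funext h)
          refine ⟨a, ?_⟩
          rw [h1 a]
          exact mul_ne_zero hc fun h => ha ((map_eq_zero _).1 h)
    rw [e, hU]
    congr 1
    rw [Finset.sum_mul]
    refine Finset.sum_congr rfl fun l _ => ?_
    rw [(hW l j hj).2]
    ring

end Pool.Agent.J4H55.YJ.Two
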