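import Pool.Agent.J4H55.YJ.C3a

set_option autoImplicit false
set_option linter.unusedSectionVars false

/-! # Project YJ, (C3): the volumes near a singular point of the cone -/

namespace Pool.Agent.J4H55.YJ

open MvPolynomial
open Pool.Agent.W428.MOT
open Pool.Agent.TH192.MT (ar)
open Pool.Agent.J4H50.YP (deh)
open Pool.Agent.J4H50.YJ

section Vol

variable {K : Type} [Field K] {R : Type} [CommRing R] (M : Meas K R) (v : R) (hv : M.L * v = 1) (hB : Bas)

include hv in
theorem v_cancel {a b : R} (h : v * a = v * b) : a = b := by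
  have h1 : M.L * (v * a) = M.L * (v * b) := by rw [h]
  rw [← mul_assoc, ← mul_assoc, hv, one_mul, one_mul] at h1
  exact h1

include hv hB in
/-- all coordinates vanish at `0` -/
theorem vol_zero {σ : Type} [Fintype σ] :
    IsCyl {x : Ac K σ | ∀ i, PowerSeries.coeff 0 (x i) = 0} ∧
      vol M v {x : Ac K σ | ∀ i, PowerSeries.coeff 0 (x i) = 0} = v ^ Fintype.card σ := by
  have h := hB.sc M v hv (fun _ : σ => 1) Set.univ (cyl_ops M v hv hB.v1).2.2.2.1
  have e : {x : Ac K σ | ∃ y ∈ (Set.univ : Set (Ac K σ)), ∀ i, x i = PowerSeries.X ^ 1 * y i} =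
      {x : Ac K σ | ∀ i, PowerSeries.coeff 0 (x i) = 0} := by
    ext x
    constructor
    · rintro ⟨y, _, hy⟩ i
      rw [hy i, pow_one, PowerSeries.coeff_zero_X_mul]
    · intro hx
      have h1 : ∀ i, PowerSeries.X ∣ x i := fun i => by
        rw [PowerSeries.X_dvd_iff, ← PowerSeries.coeff_zero_eq_constantCoeff_apply]
        exact hx i
      choose y hy using h1
      exact ⟨y, Set.mem_univ _, fun i => by rw [pow_one]; exact hy i⟩
  rw [e] at h
  refine ⟨h.1, ?_⟩
  rw [h.2, (hB.v1 M v hv (σ := σ)).2.2.2.1, mul_one, Finset.sum_const, smul_eq_mul, mul_one, Finset.card_univ]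

include hv hB in
theorem vol_Unit : IsCyl {x : Ac K Unit | PowerSeries.coeff 0 (x ()) = 0} ∧
    vol M v {x : Ac K Unit | PowerSeries.coeff 0 (x ()) = 0} = v := by
  have h := vol_zero M v hv hB (K := K) (σ := Unit)
  have e : {x : Ac K Unit | ∀ i, PowerSeries.coeff 0 (x i) = 0} = {x : Ac K Unit | PowerSeries.coeff 0 (x ()) = 0} := by
    ext x
    exact ⟨fun h => h (), fun h i => h⟩
  rw [e, Fintype.card_unit, pow_one] at h
  exact h

include hv hB in
theorem vol_Unit' : IsCyl {x : Ac K Unit | PowerSeries.coeff 0 (x ()) ≠ 0} ∧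
    vol M v {x : Ac K Unit | PowerSeries.coeff 0 (x ()) ≠ 0} = 1 - v := by
  have h := vol_Unit M v hv hB (K := K)
  have hu := (cyl_ops (σ := Unit) M v hv hB.v1).2.2.2.1
  have e : {x : Ac K Unit | PowerSeries.coeff 0 (x ()) ≠ 0} =
      {x | x ∈ (Set.univ : Set (Ac K Unit)) ∧ x ∉ {x : Ac K Unit | PowerSeries.coeff 0 (x ()) = 0}} := by
    ext x
    simp
  constructor
  · rw [e]
    exact (cyl_ops M v hv hB.v1).2.1 _ _ hu ((cyl_ops M v hv hB.v1).1 _ h.1)
  · rw [e, vol_diff M v hv hB.v1 _ _ hu h.1 (Set.subset_univ _), (hB.v1 M v hv (σ := Unit)).2.2.2.1, h.2]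

variable {τ : Type} [Fintype τ]

include hv hB in
/-- the order is at least `i` -/
theorem vol_ge (g : MvPolynomial τ K) (i : ℕ) :
    IsCyl {y : Ac K τ | (∀ s, PowerSeries.coeff 0 (y s) = 0) ∧ ∀ m < i, PowerSeries.coeff m (aeval y g) = 0} ∧
    vol M v {y : Ac K τ | (∀ s, PowerSeries.coeff 0 (y s) = 0) ∧ ∀ m < i, PowerSeries.coeff m (aeval y g) = 0} =
      v ^ Fintype.card τ - ∑ l ∈ Finset.range i, vol M v (A1 g l) := by
  have h0 := vol_zero M v hv hB (K := K) (σ := τ)
  have h1 := cyl_finUnion M v hv hB.v1 (Finset.range i) (fun l => A1 g l) fun l _ => cyl_A1 M v hv hB.v1 hB.cc g l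
  have h2 := vol_finUnion M v hv hB.v1 (Finset.range i) (fun l => A1 g l)
    (fun l _ => cyl_A1 M v hv hB.v1 hB.cc g l) (by
      intro a _ b _ hab
      rw [Set.disjoint_left]
      intro x hx hx'
      exact hab (Od_unique hx.2 hx'.2))
  have e : {y : Ac K τ | (∀ s, PowerSeries.coeff 0 (y s) = 0) ∧ ∀ m < i, PowerSeries.coeff m (aeval y g) = 0} =
      {y | y ∈ {x : Ac K τ | ∀ i, PowerSeries.coeff 0 (x i) = 0} ∧ y ∉ {x | ∃ l ∈ Finset.range i, x ∈ A1 g l}} := by
    ext y
    constructor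
    · rintro ⟨h3, h4⟩
      refine ⟨h3, ?_⟩
      rintro ⟨l, hl, h5⟩
      exact h5.2.2 (h4 l (Finset.mem_range.1 hl))
    · rintro ⟨h3, h4⟩
      refine ⟨h3, ?_⟩
      intro m
      induction m using Nat.strong_induction_on with
      | _ m ih =>
        intro hm
        by_contra h5
        exact h4 ⟨m, Finset.mem_range.2 hm, h3, fun j hj => ih j hj (hj.trans hm), h5⟩
  constructor
  · rw [e]
    exact (cyl_ops M v hv hB.v1).2.1 _ _ h0.1 ((cyl_ops M v hv hB.v1).1 _ h1)
  · rw [e, vol_diff M v hv hB.v1 _ _ h0.1 h1, h0.2, h2]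
    rintro x ⟨l, _, hx⟩
    exact hx.1

/-- multiplication of the first coordinate by `t` -/
def Scl (T : Set (Ac K (Unit ⊕ τ))) : Set (Ac K (Unit ⊕ τ)) :=
  {x | ∃ u ∈ T, x (Sum.inl ()) = PowerSeries.X * u (Sum.inl ()) ∧ ∀ s, x (Sum.inr s) = u (Sum.inr s)}

include hv hB in
theorem vol_Scl (T : Set (Ac K (Unit ⊕ τ))) (hT : IsCyl T) : vol M v (Scl T) = v * vol M v T := by
  have h := hB.sc M v hv (Sum.elim (fun _ => 1) (fun _ => 0) : Unit ⊕ τ → ℕ) T hT
  have e : {x : Ac K (Unit ⊕ τ) | ∃ y ∈ T, ∀ i, x i = PowerSeries.X ^ ((Sum.elim (fun _ => 1) (fun _ => 0) : Unit ⊕ τ → ℕ) i) * y i} =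
      Scl T := by
    ext x
    constructor
    · rintro ⟨y, hy, h1⟩
      refine ⟨y, hy, ?_, fun s => ?_⟩
      · rw [h1]; simp
      · rw [h1]; simp
    · rintro ⟨y, hy, h1, h2⟩
      refine ⟨y, hy, ?_⟩
      rintro (s | s)
      · rw [Sum.elim_inl, pow_one]; exact h1
      · rw [Sum.elim_inr, pow_zero, one_mul]; exact h2 s
  rw [e] at h
  rw [h.2]
  congr 1
  simp

end Vol

section Main

variable {K : Type} [Field K] [CharZero K] {R : Type} [CommRing R] (M : Meas K R) (v : R) (hv : M.L * v = 1)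
  (hB : Bas) {σ : Type} [Fintype σ] [DecidableEq σ] (F : MvPolynomial σ K) (d i : ℕ) (hi : 1 ≤ i)
  (hF : ∀ j < d, homogeneousComponent j F = 0) (P : σ → K) (i₀ : σ)
  (hP : eval P (homogeneousComponent (d + 1) F) ≠ 0)

include hP in
theorem hD' : d + 1 ≤ F.totalDegree := by
  by_contra h
  apply hP
  rw [homogeneousComponent_eq_zero _ _ (by omega), map_zero]

/-- the function `g` -/
noncomputable abbrev gg' : MvPolynomial {l : σ // l ≠ i₀} K := deh P i₀ (homogeneousComponent d F)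

include hi hF hP in
theorem coeff_lt (w : PowerSeries (AlgebraicClosure K)) (y : {l : σ // l ≠ i₀} → PowerSeries (AlgebraicClosure K))
    (m : ℕ) (hm : m < i) : PowerSeries.coeff m (Gam F d i P i₀ w y) = PowerSeries.coeff m (aeval y (gg' F d P i₀)) := by
  have h := (PowerSeries.X_pow_dvd_iff.1 (Gam_low F d i hi P i₀ hF (hD' F d P hP) w y)) m (by omega)
  rw [map_sub, map_add, sub_eq_zero] at h
  rw [h, PowerSeries.coeff_X_pow_mul', if_neg (by omega), add_zero]

include hi hF hP in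
theorem coeff_eq (w : PowerSeries (AlgebraicClosure K)) (y : {l : σ // l ≠ i₀} → PowerSeries (AlgebraicClosure K))
    (hy : ∀ s, PowerSeries.coeff 0 (y s) = 0) : PowerSeries.coeff i (Gam F d i P i₀ w y) =
      PowerSeries.coeff i (aeval y (gg' F d P i₀)) + PowerSeries.coeff 0 w *
        algebraMap K (AlgebraicClosure K) (eval P (homogeneousComponent (d + 1) F)) := by
  have h := (PowerSeries.X_pow_dvd_iff.1 (Gam_low F d i hi P i₀ hF (hD' F d P hP) w y)) i (by omega)
  rw [map_sub, map_add, sub_eq_zero] at h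
  rw [h, PowerSeries.coeff_X_pow_mul', if_pos le_rfl, Nat.sub_self]
  congr 1
  rw [PowerSeries.coeff_zero_eq_constantCoeff_apply, map_mul, ← PowerSeries.coeff_zero_eq_constantCoeff_apply,
    ← PowerSeries.coeff_zero_eq_constantCoeff_apply, coeff_zero_aeval y hy, constantCoeff_deh]

include hP in
theorem qne : algebraMap K (AlgebraicClosure K) (eval P (homogeneousComponent (d + 1) F)) ≠ 0 := by
  intro h
  apply hP
  exact (map_eq_zero _).1 h

/-- the scaled sets -/
def AA (k : ℕ) : Set (Ac K (Rh σ i₀)) :=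
  {x | PowerSeries.coeff 0 (x (Sum.inl ())) = 0 ∧ (fun s => x (Sum.inr s)) ∈ A1 (gg' F d P i₀) i ∧
    ∀ m, i ≤ m → m < i + k → PowerSeries.coeff m (ev x (GP F d (i - 1) P i₀)) = 0}

include hv hB hi hF hP in
theorem vol_AA (k : ℕ) : IsCyl (AA F d i P i₀ k) ∧
    vol M v (AA F d i P i₀ k) = v ^ k * (v * vol M v (A1 (gg' F d P i₀) i)) := by
  induction k with
  | zero =>
    have h1 := vol_Unit M v hv hB (K := K)
    have h2 := hB.pr M v hv (σ := Unit) (τ := {l : σ // l ≠ i₀}) _ (A1 (gg' F d P i₀) i) h1.1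
      (cyl_A1 M v hv hB.v1 hB.cc _ _)
    have e : {x : Ac K (Unit ⊕ {l : σ // l ≠ i₀}) | (fun i => x (Sum.inl i)) ∈ {x : Ac K Unit | PowerSeries.coeff 0 (x ()) = 0} ∧
        (fun i => x (Sum.inr i)) ∈ A1 (gg' F d P i₀) i} = AA F d i P i₀ 0 := by
      ext x
      constructor
      · rintro ⟨h3, h4⟩
        exact ⟨h3, h4, fun m h5 h6 => by omega⟩
      · rintro ⟨h3, h4, _⟩
        exact ⟨h3, h4⟩
    rw [e] at h2
    refine ⟨h2.1, ?_⟩
    rw [h2.2, h1.2, pow_zero, one_mul]
  | succ k ih =>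
    have e : AA F d i P i₀ (k + 1) = AA F d i P i₀ k ∩ {x | PowerSeries.coeff (i + k) (ev x (GP F d (i - 1) P i₀)) = 0} := by
      ext x
      constructor
      · rintro ⟨h3, h4, h5⟩
        exact ⟨⟨h3, h4, fun m h6 h7 => h5 m h6 (by omega)⟩, h5 (i + k) (by omega) (by omega)⟩
      · rintro ⟨⟨h3, h4, h5⟩, h6⟩
        refine ⟨h3, h4, fun m h7 h8 => ?_⟩
        rcases Nat.lt_or_ge m (i + k) with h9 | h9
        · exact h5 m h7 h9
        · have : m = i + k := by omega
          rw [this]; exact h6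
    have hc : IsCyl {x : Ac K (Rh σ i₀) | PowerSeries.coeff (i + k) (ev x (GP F d (i - 1) P i₀)) = 0} :=
      (hB.cc (K := K) (σ := Rh σ i₀)).1 _ _
    refine ⟨by rw [e]; exact (cyl_ops M v hv hB.v1).2.1 _ _ ih.1 hc, ?_⟩
    have hlin := hB.lin M v hv (AA F d i P i₀ k) ih.1 (Sum.inl ()) (k + 1) (i + k) (GP F d (i - 1) P i₀)
      (C (eval P (homogeneousComponent (d + 1) F))) (by omega) (by
        intro x _
        rw [algHom_C]
        exact qne F d P hP) (by
        intro x hx c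
        obtain ⟨hx1, hx2, hx3⟩ := hx
        have hX : PowerSeries.X ∣ x (Sum.inl ()) := by
          rw [PowerSeries.X_dvd_iff, ← PowerSeries.coeff_zero_eq_constantCoeff_apply]
          exact hx1
        obtain ⟨w, hw⟩ := hX
        have hmon : x (Sum.inl ()) + PowerSeries.monomial (k + 1) c = PowerSeries.X * (w + PowerSeries.monomial k c) := by
          rw [hw, mul_add]
          congr 1
          rw [PowerSeries.monomial_eq_C_mul_X_pow, PowerSeries.monomial_eq_C_mul_X_pow]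
          ring
        have hu1 : Function.update x (Sum.inl ()) (x (Sum.inl ()) + PowerSeries.monomial (k + 1) c) (Sum.inl ()) =
            PowerSeries.X * (w + PowerSeries.monomial k c) := by
          rw [Function.update_self, hmon]
        have hu2 : ∀ s, Function.update x (Sum.inl ()) (x (Sum.inl ()) + PowerSeries.monomial (k + 1) c) (Sum.inr s) =
            x (Sum.inr s) := by
          intro s
          rw [Function.update_of_ne (by simp)]
        have hev1 : ev (Function.update x (Sum.inl ()) (x (Sum.inl ()) + PowerSeries.monomial (k + 1) c)) (GP F d (i - 1) P i₀) =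
            Gam F d i P i₀ (w + PowerSeries.monomial k c) (fun s => x (Sum.inr s)) := by
          rw [ev_GP, hu1]
          simp only [hu2]
          rw [Gam_scale F d i hi]
        have hev2 : ev x (GP F d (i - 1) P i₀) = Gam F d i P i₀ w (fun s => x (Sum.inr s)) := by
          rw [ev_GP, hw, Gam_scale F d i hi]
        have hsh := PowerSeries.X_pow_dvd_iff.1 (Gam_shift F d i hi P i₀ (hD' F d P hP) k c w (fun s => x (Sum.inr s)))
        have hcl : ∀ m < i + k, PowerSeries.coeff m (Gam F d i P i₀ (w + PowerSeries.monomial k c) (fun s => x (Sum.inr s))) =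
            PowerSeries.coeff m (Gam F d i P i₀ w (fun s => x (Sum.inr s))) := by
          intro m hm
          have h := hsh m (by omega)
          rw [map_sub, map_add, sub_eq_zero] at h
          rw [h, PowerSeries.coeff_X_pow_mul', if_neg (by omega), add_zero]
        constructor
        · refine ⟨?_, ?_, ?_⟩
          · rw [hu1, PowerSeries.coeff_zero_X_mul]
          · simp only [hu2]
            exact hx2
          · intro m hm1 hm2
            rw [hev1, hcl m hm2, ← hev2]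
            exact hx3 m hm1 hm2
        · rw [hev1, hev2]
          have h := hsh (i + k) (by omega)
          rw [map_sub, map_add, sub_eq_zero] at h
          rw [h, PowerSeries.coeff_X_pow_mul', if_pos le_rfl, Nat.sub_self, PowerSeries.coeff_C_mul,
            coeff_zero_aeval _ hx2.1, constantCoeff_deh, algHom_C])
    rw [e, hlin, ih.2, pow_succ]
    ring

/-- the sets `N_k` -/
def NN (k : ℕ) : Set (Ac K (Rh σ i₀)) :=
  {x | PowerSeries.coeff 0 (x (Sum.inl ())) ≠ 0 ∧ (∀ s, PowerSeries.coeff 0 (x (Sum.inr s)) = 0) ∧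
    ∀ m < i + k, PowerSeries.coeff m (ev x (GP F d i P i₀)) = 0}

include hv hB in
theorem cyl_NN (k : ℕ) : IsCyl (NN F d i P i₀ k) := by
  have hops := cyl_ops (σ := Rh σ i₀) M v hv hB.v1
  have h1 : IsCyl {x : Ac K (Rh σ i₀) | PowerSeries.coeff 0 (x (Sum.inl ())) = 0} := cyl_coord hB.cc _ _
  have h2 := cyl_finInter M v hv hB.v1 (Finset.univ : Finset {l : σ // l ≠ i₀})
    (fun s => {x : Ac K (Rh σ i₀) | PowerSeries.coeff 0 (x (Sum.inr s)) = 0}) (fun s _ => cyl_coord hB.cc _ _)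
  have h3 := cyl_finInter M v hv hB.v1 (Finset.range (i + k))
    (fun m => {x : Ac K (Rh σ i₀) | PowerSeries.coeff m (ev x (GP F d i P i₀)) = 0})
    (fun m _ => (hB.cc (K := K) (σ := Rh σ i₀)).1 _ _)
  have h4 := hops.2.1 _ _ (hops.1 _ h1) (hops.2.1 _ _ h2 h3)
  have e : {x : Ac K (Rh σ i₀) | PowerSeries.coeff 0 (x (Sum.inl ())) = 0}ᶜ ∩
      ({x | ∀ s ∈ (Finset.univ : Finset {l : σ // l ≠ i₀}), x ∈ {x : Ac K (Rh σ i₀) | PowerSeries.coeff 0 (x (Sum.inr s)) = 0}} ∩
        {x | ∀ m ∈ Finset.range (i + k), x ∈ {x : Ac K (Rh σ i₀) | PowerSeries.coeff m (ev x (GP F d i P i₀)) = 0}}) =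
      NN F d i P i₀ k := by
    ext x
    simp only [Set.mem_inter_iff, Set.mem_compl_iff, Set.mem_ofPred_eq, Finset.mem_univ, forall_const, Finset.mem_range]
    rfl
  rwa [e] at h4

include hi hF hP in
theorem Scl_NN (k : ℕ) (hk : 1 ≤ k) : Scl (NN F d i P i₀ k) = AA F d i P i₀ k := by
  ext x
  constructor
  · rintro ⟨u, ⟨hu1, hu2, hu3⟩, hx1, hx2⟩
    have hy : ∀ s, PowerSeries.coeff 0 (x (Sum.inr s)) = 0 := fun s => by rw [hx2]; exact hu2 s
    have hev : ev x (GP F d (i - 1) P i₀) = ev u (GP F d i P i₀) := by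
      rw [ev_GP, ev_GP, hx1, Gam_scale F d i hi]
      simp only [hx2]
    refine ⟨?_, ⟨hy, ?_, ?_⟩, ?_⟩
    · rw [hx1, PowerSeries.coeff_zero_X_mul]
    · intro m hm
      have h := hu3 m (by omega)
      rw [ev_GP, coeff_lt F d i hi hF P i₀ hP _ _ m hm] at h
      simp only [hx2]
      exact h
    · intro h0
      have h := hu3 i (by omega)
      rw [ev_GP, coeff_eq F d i hi hF P i₀ hP _ _ hu2] at h
      simp only [hx2] at h0
      rw [h0, zero_add] at h
      rcases mul_eq_zero.1 h with h' | h'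
      · exact hu1 h'
      · exact qne F d P hP h'
    · intro m _ hm
      rw [hev]
      exact hu3 m hm
  · rintro ⟨hx1, ⟨hx2, hx3, hx4⟩, hx5⟩
    have hX : PowerSeries.X ∣ x (Sum.inl ()) := by
      rw [PowerSeries.X_dvd_iff, ← PowerSeries.coeff_zero_eq_constantCoeff_apply]
      exact hx1
    obtain ⟨w, hw⟩ := hX
    have hev : ev x (GP F d (i - 1) P i₀) = Gam F d i P i₀ w (fun s => x (Sum.inr s)) := by
      rw [ev_GP, hw, Gam_scale F d i hi]
    refine ⟨Sum.elim (fun _ => w) (fun s => x (Sum.inr s)), ⟨?_, ?_, ?_⟩, hw, fun s => rfl⟩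
    · intro h0
      have h := hx5 i le_rfl (by omega)
      rw [hev, coeff_eq F d i hi hF P i₀ hP _ _ hx2] at h
      rw [Sum.elim_inl] at h0
      rw [h0, zero_mul, add_zero] at h
      exact hx4 h
    · intro s
      exact hx2 s
    · intro m hm
      rw [ev_GP]
      simp only [Sum.elim_inl, Sum.elim_inr]
      rcases Nat.lt_or_ge m i with h1 | h1
      · rw [coeff_lt F d i hi hF P i₀ hP _ _ m h1]
        exact hx3 m h1
      · rw [← hev]
        exact hx5 m h1 hm

include hv hB hi hF hP in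
theorem vol_NN (k : ℕ) (hk : 1 ≤ k) : vol M v (NN F d i P i₀ k) = v ^ k * vol M v (A1 (gg' F d P i₀) i) := by
  have h1 := vol_Scl M v hv hB (NN F d i P i₀ k) (cyl_NN M v hv hB F d i P i₀ k)
  rw [Scl_NN F d i hi hF P i₀ hP k hk, (vol_AA M v hv hB F d i hi hF P i₀ hP k).2] at h1
  apply v_cancel M v hv
  rw [← h1]
  ring

/-- the set in the coordinates `(w, y)` -/
def TT (j : ℕ) : Set (Ac K (Rh σ i₀)) :=
  {x | PowerSeries.coeff 0 (x (Sum.inl ())) ≠ 0 ∧ (∀ s, PowerSeries.coeff 0 (x (Sum.inr s)) = 0) ∧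
    Od (ev x (GP F d i P i₀)) j}

include hv hB in
theorem cyl_TT (j : ℕ) : IsCyl (TT F d i P i₀ j) := by
  have hops := cyl_ops (σ := Rh σ i₀) M v hv hB.v1
  have h1 : IsCyl {x : Ac K (Rh σ i₀) | PowerSeries.coeff 0 (x (Sum.inl ())) = 0} := cyl_coord hB.cc _ _
  have h2 := cyl_finInter M v hv hB.v1 (Finset.univ : Finset {l : σ // l ≠ i₀})
    (fun s => {x : Ac K (Rh σ i₀) | PowerSeries.coeff 0 (x (Sum.inr s)) = 0}) (fun s _ => cyl_coord hB.cc _ _)
  have h3 := cyl_Od_ev M v hv hB.v1 hB.cc (GP F d i P i₀) j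
  have h4 := hops.2.1 _ _ (hops.1 _ h1) (hops.2.1 _ _ h2 h3)
  have e : {x : Ac K (Rh σ i₀) | PowerSeries.coeff 0 (x (Sum.inl ())) = 0}ᶜ ∩
      ({x | ∀ s ∈ (Finset.univ : Finset {l : σ // l ≠ i₀}), x ∈ {x : Ac K (Rh σ i₀) | PowerSeries.coeff 0 (x (Sum.inr s)) = 0}} ∩
        {x : Ac K (Rh σ i₀) | Od (ev x (GP F d i P i₀)) j}) = TT F d i P i₀ j := by
    ext x
    simp only [Set.mem_inter_iff, Set.mem_compl_iff, Set.mem_ofPred_eq, Finset.mem_univ, forall_const]
    rfl
  rwa [e] at h4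

theorem card_Rh : Fintype.card σ = Fintype.card (Rh σ i₀) := by
  rw [Fintype.card_sum, Fintype.card_unit, ← Fintype.card_congr (Equiv.optionSubtypeNe i₀), Fintype.card_option, add_comm]

include hv hB hi hF hP in
theorem vol_TT (j : ℕ) : vol M v (TT F d i P i₀ j) =
    wj v (Fintype.card σ) (fun l => vol M v (A1 (gg' F d P i₀) l)) i j := by
  have hU := vol_Unit' M v hv hB (K := K)
  have hcard : Fintype.card {l : σ // l ≠ i₀} = Fintype.card σ - 1 := by
    rw [card_Rh i₀, Fintype.card_sum, Fintype.card_unit, Nat.add_sub_cancel_left]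
  unfold wj
  rcases Nat.lt_trichotomy j i with h | h | h
  · -- `j < i`
    rw [if_pos h]
    have h2 := hB.pr M v hv (σ := Unit) (τ := {l : σ // l ≠ i₀}) _ (A1 (gg' F d P i₀) j) hU.1
      (cyl_A1 M v hv hB.v1 hB.cc _ _)
    have e : {x : Ac K (Unit ⊕ {l : σ // l ≠ i₀}) | (fun i => x (Sum.inl i)) ∈ {x : Ac K Unit | PowerSeries.coeff 0 (x ()) ≠ 0} ∧
        (fun i => x (Sum.inr i)) ∈ A1 (gg' F d P i₀) j} = TT F d i P i₀ j := by
      ext x
      have hc : ∀ m ≤ j, PowerSeries.coeff m (ev x (GP F d i P i₀)) =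
          PowerSeries.coeff m (aeval (fun s => x (Sum.inr s)) (gg' F d P i₀)) := by
        intro m hm
        rw [ev_GP, coeff_lt F d i hi hF P i₀ hP _ _ m (by omega)]
      constructor
      · rintro ⟨h3, h4, h5, h6⟩
        exact ⟨h3, h4, fun m hm => by rw [hc m hm.le]; exact h5 m hm, by rw [hc j le_rfl]; exact h6⟩
      · rintro ⟨h3, h4, h5, h6⟩
        exact ⟨h3, h4, fun m hm => by rw [← hc m hm.le]; exact h5 m hm, by rw [← hc j le_rfl]; exact h6⟩
    rw [e] at h2
    rw [h2.2, hU.2]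
  · -- `j = i`
    subst h
    rw [if_neg (lt_irrefl j), if_pos rfl]
    have hge := vol_ge M v hv hB (gg' F d P i₀) j
    have h2 := hB.pr M v hv (σ := Unit) (τ := {l : σ // l ≠ i₀}) _ _ hU.1 hge.1
    have hN := vol_NN M v hv hB F d j hi hF P i₀ hP 1 le_rfl
    have hNc := cyl_NN M v hv hB F d j P i₀ 1
    obtain ⟨Q, hQ⟩ : ∃ Q : Set (Ac K (Unit ⊕ {l : σ // l ≠ i₀})), Q =
      {x | (fun i => x (Sum.inl i)) ∈ {x : Ac K Unit | PowerSeries.coeff 0 (x ()) ≠ 0} ∧
        (fun i => x (Sum.inr i)) ∈ {y : Ac K {l : σ // l ≠ i₀} | (∀ s, PowerSeries.coeff 0 (y s) = 0) ∧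
          ∀ m < j, PowerSeries.coeff m (aeval y (gg' F d P i₀)) = 0}} := ⟨_, rfl⟩
    rw [← hQ] at h2
    have hsub : NN F d j P i₀ 1 ⊆ Q := by
      rintro x ⟨h3, h4, h5⟩
      rw [hQ]
      refine ⟨h3, h4, fun m hm => ?_⟩
      have h6 := h5 m (by omega)
      rw [ev_GP, coeff_lt F d j hi hF P i₀ hP _ _ m hm] at h6
      exact h6
    have e : TT F d j P i₀ j = {x | x ∈ Q ∧ x ∉ NN F d j P i₀ 1} := by
      ext x
      constructor
      · rintro ⟨h3, h4, h5, h6⟩
        refine ⟨?_, fun h7 => h6 (h7.2.2 j (by omega))⟩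
        rw [hQ]
        refine ⟨h3, h4, fun m hm => ?_⟩
        have h7 := h5 m hm
        rw [ev_GP, coeff_lt F d j hi hF P i₀ hP _ _ m hm] at h7
        exact h7
      · rintro ⟨h3, h4⟩
        rw [hQ] at h3
        obtain ⟨h3, h5, h6⟩ := h3
        have h7 : ∀ m < j, PowerSeries.coeff m (ev x (GP F d j P i₀)) = 0 := by
          intro m hm
          rw [ev_GP, coeff_lt F d j hi hF P i₀ hP _ _ m hm]
          exact h6 m hm
        refine ⟨h3, h5, h7, fun h8 => h4 ⟨h3, h5, fun m hm => ?_⟩⟩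
        rcases Nat.lt_or_ge m j with h9 | h9
        · exact h7 m h9
        · have : m = j := by omega
          rw [this]; exact h8
    rw [e, vol_diff M v hv hB.v1 _ _ h2.1 hNc hsub, h2.2, hU.2, hge.2, hN, hcard, Finset.sum_range_succ]
    ring
  · -- `j > i`
    rw [if_neg (by omega), if_neg (by omega)]
    have hN1 := vol_NN M v hv hB F d i hi hF P i₀ hP (j - i) (by omega)
    have hN2 := vol_NN M v hv hB F d i hi hF P i₀ hP (j - i + 1) (by omega)
    have hsub : NN F d i P i₀ (j - i + 1) ⊆ NN F d i P i₀ (j - i) := by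
      rintro x ⟨h3, h4, h5⟩
      exact ⟨h3, h4, fun m hm => h5 m (by omega)⟩
    have e : TT F d i P i₀ j = {x | x ∈ NN F d i P i₀ (j - i) ∧ x ∉ NN F d i P i₀ (j - i + 1)} := by
      ext x
      constructor
      · rintro ⟨h3, h4, h5, h6⟩
        exact ⟨⟨h3, h4, fun m hm => h5 m (by omega)⟩, fun h7 => h6 (h7.2.2 j (by omega))⟩
      · rintro ⟨⟨h3, h4, h5⟩, h6⟩
        refine ⟨h3, h4, fun m hm => h5 m (by omega), fun h8 => h6 ⟨h3, h4, fun m hm => ?_⟩⟩
        rcases Nat.lt_or_ge m j with h9 | h9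
        · exact h5 m (by omega)
        · have : m = j := by omega
          rw [this]; exact h8
    rw [e, vol_diff M v hv hB.v1 _ _ (cyl_NN M v hv hB F d i P i₀ _) (cyl_NN M v hv hB F d i P i₀ _) hsub, hN1, hN2, pow_succ]
    ring

end Main

theorem t_C3 : Bas → S_C3 := by
  intro hB K _ _ R _ M v hv σ _ _ F d hd hF P i₀ hPi _ hP i j hi
  rw [← vol_TT M v hv hB F d i hi hF P i₀ hP j]
  have hKb : algebraMap K (AlgebraicClosure K) (P i₀) ≠ 0 := fun h => hPi ((map_eq_zero _).1 h)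
  have hops := cyl_ops (σ := σ) M v hv hB.v1
  have hcA : IsCyl (LP P ∩ {ξ : Ac K σ | Od (Qm F d i ξ) j}) := by
    refine hops.2.1 _ _ ?_ (cyl_Qm M v hv hB.v1 hB.cc F d i j)
    have h1 : IsCyl {x : Ac K σ | PowerSeries.coeff 0 (x i₀) = 0} := cyl_coord hB.cc _ _
    have h2 := cyl_finInter M v hv hB.v1 (Finset.univ : Finset σ)
      (fun s => {x : Ac K σ | PowerSeries.coeff 0 (aeval x (X s * C (P i₀) - X i₀ * C (P s) : MvPolynomial σ K)) = 0})
      (fun s _ => cyl_coeff hB.cc _ _)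
    have h4 := hops.2.1 _ _ (hops.1 _ h1) h2
    have e : {x : Ac K σ | PowerSeries.coeff 0 (x i₀) = 0}ᶜ ∩
        {x | ∀ s ∈ (Finset.univ : Finset σ), x ∈ {x : Ac K σ | PowerSeries.coeff 0
          (aeval x (X s * C (P i₀) - X i₀ * C (P s) : MvPolynomial σ K)) = 0}} = LP P := by
      have hcomp : ∀ (x : Ac K σ) (s : σ), PowerSeries.coeff 0
          (aeval x (X s * C (P i₀) - X i₀ * C (P s) : MvPolynomial σ K)) =
          PowerSeries.coeff 0 (x s) * algebraMap K (AlgebraicClosure K) (P i₀) -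
            PowerSeries.coeff 0 (x i₀) * algebraMap K (AlgebraicClosure K) (P s) := by
        intro x s
        rw [map_sub, map_mul, map_mul, aeval_X, aeval_X, algHom_C, algHom_C]
        simp [PowerSeries.algebraMap_apply]
      ext x
      simp only [Set.mem_inter_iff, Set.mem_compl_iff, Set.mem_ofPred_eq, Finset.mem_univ, forall_const, hcomp, LP, gp]
      constructor
      · rintro ⟨h5, h6⟩
        refine ⟨PowerSeries.coeff 0 (x i₀) / algebraMap K (AlgebraicClosure K) (P i₀), div_ne_zero h5 hKb, fun r => ?_⟩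
        have h7 := sub_eq_zero.1 (h6 r)
        rw [div_mul_eq_mul_div, eq_div_iff hKb, h7]
      · rintro ⟨c, hc, h5⟩
        refine ⟨?_, fun s => ?_⟩
        · rw [h5 i₀]
          exact mul_ne_zero hc hKb
        · rw [h5 s, h5 i₀]
          ring
    rwa [e] at h4
  -- the isomorphism
  have hcT := cyl_TT M v hv hB F d i P i₀ j
  set kk : PowerSeries (AlgebraicClosure K) := algebraMap K (PowerSeries (AlgebraicClosure K)) (P i₀) with hkk
  have hkkC : kk = PowerSeries.C (algebraMap K (AlgebraicClosure K) (P i₀)) := by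
    rw [hkk, PowerSeries.algebraMap_apply]
  have hkk0 : PowerSeries.coeff 0 kk ≠ 0 := by
    rw [hkkC, PowerSeries.coeff_zero_C]
    exact hKb
  have hkkm : kk * kk⁻¹ = 1 := PowerSeries.mul_inv_cancel _ (by
    rw [← PowerSeries.coeff_zero_eq_constantCoeff_apply]; exact hkk0)
  have hco : ∀ a : K, PowerSeries.coeff 0 (algebraMap K (PowerSeries (AlgebraicClosure K)) a) =
      algebraMap K (AlgebraicClosure K) a := by
    intro a
    rw [PowerSeries.algebraMap_apply, PowerSeries.coeff_zero_C]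
  refine hB.iso M v hv (card_Rh i₀) _ _ hcA hcT
    (fun ξ => Sum.elim (fun _ => ξ i₀ * kk⁻¹) (fun s => ξ s * (ξ i₀ * kk⁻¹)⁻¹ -
      algebraMap K (PowerSeries (AlgebraicClosure K)) (P s)))
    (fun x l => if h : l = i₀ then x (Sum.inl ()) * kk else x (Sum.inl ()) * (x (Sum.inr ⟨l, h⟩) +
      algebraMap K (PowerSeries (AlgebraicClosure K)) (P l))) ?_ ?_ ?_ ?_
  · -- `φ`
    rintro ξ ⟨⟨c, hc, hξ⟩, hQ⟩
    obtain ⟨w, hw⟩ : ∃ w, w = ξ i₀ * kk⁻¹ := ⟨_, rfl⟩
    have hwk : w * kk = ξ i₀ := by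
      rw [hw, mul_assoc, mul_comm kk⁻¹, hkkm, mul_one]
    have hw0 : PowerSeries.coeff 0 w = c := by
      have h1 : PowerSeries.coeff 0 (w * kk) = c * gp P i₀ := by rw [hwk]; exact hξ i₀
      rw [PowerSeries.coeff_zero_eq_constantCoeff_apply, map_mul, ← PowerSeries.coeff_zero_eq_constantCoeff_apply,
        ← PowerSeries.coeff_zero_eq_constantCoeff_apply, hkk, hco, gp] at h1
      exact mul_right_cancel₀ hKb h1
    have hwinv : w * w⁻¹ = 1 := PowerSeries.mul_inv_cancel _ (by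
      rw [← PowerSeries.coeff_zero_eq_constantCoeff_apply, hw0]; exact hc)
    have hξs : ∀ s : {l : σ // l ≠ i₀}, ξ s = w * ((ξ s * w⁻¹ - algebraMap K (PowerSeries (AlgebraicClosure K)) (P s)) +
        algebraMap K (PowerSeries (AlgebraicClosure K)) (P s)) := by
      intro s
      rw [sub_add_cancel, mul_left_comm, hwinv, mul_one]
    have hQm := Qm_eq F d i P i₀ hF ξ w (fun s => ξ s * w⁻¹ - algebraMap K (PowerSeries (AlgebraicClosure K)) (P s))
      (by rw [← hkk, hwk]) hξs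
    have hwd : PowerSeries.coeff 0 (w ^ d) ≠ 0 := by
      rw [PowerSeries.coeff_zero_eq_constantCoeff_apply, map_pow, ← PowerSeries.coeff_zero_eq_constantCoeff_apply, hw0]
      exact pow_ne_zero _ hc
    simp only [← hw]
    refine ⟨⟨?_, ?_, ?_⟩, ?_⟩
    · rw [Sum.elim_inl, hw0]
      exact hc
    · intro s
      rw [Sum.elim_inr]
      have h1 : PowerSeries.coeff 0 (ξ s) = c * gp P s := hξ s
      have h2 : PowerSeries.constantCoeff w⁻¹ = c⁻¹ := by
        rw [PowerSeries.constantCoeff_inv, ← PowerSeries.coeff_zero_eq_constantCoeff_apply, hw0]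
      rw [map_sub, hco, PowerSeries.coeff_zero_eq_constantCoeff_apply, map_mul,
        ← PowerSeries.coeff_zero_eq_constantCoeff_apply, h1, h2, gp]
      field_simp
      ring
    · have h3 : Od (Qm F d i ξ) j := hQ
      rw [hQm, Od_unit _ _ hwd] at h3
      rw [ev_GP]
      exact h3
    · funext l
      by_cases h : l = i₀
      · rw [dif_pos h, Sum.elim_inl, hwk, h]
      · rw [dif_neg h, Sum.elim_inl, Sum.elim_inr]
        exact (hξs ⟨l, h⟩).symm
  · -- `ψ`
    rintro x ⟨hx1, hx2, hx3⟩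
    obtain ⟨w, hw⟩ : ∃ w, w = x (Sum.inl ()) := ⟨_, rfl⟩
    rw [← hw] at hx1
    have hwd : PowerSeries.coeff 0 (w ^ d) ≠ 0 := by
      rw [PowerSeries.coeff_zero_eq_constantCoeff_apply, map_pow, ← PowerSeries.coeff_zero_eq_constantCoeff_apply]
      exact pow_ne_zero _ hx1
    have hwinv : w * w⁻¹ = 1 := PowerSeries.mul_inv_cancel _ (by
      rw [← PowerSeries.coeff_zero_eq_constantCoeff_apply]; exact hx1)
    simp only [← hw]
    have hQm := Qm_eq F d i P i₀ hF (fun l => if h : l = i₀ then w * kk else w * (x (Sum.inr ⟨l, h⟩) +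
      algebraMap K (PowerSeries (AlgebraicClosure K)) (P l))) w (fun s => x (Sum.inr s))
      (by simp only [dif_pos]; rfl) (by
        intro s
        simp only [dif_neg s.2])
    have hwkk : w * kk * kk⁻¹ = w := by rw [mul_assoc, hkkm, mul_one]
    refine ⟨⟨⟨PowerSeries.coeff 0 w, hx1, ?_⟩, ?_⟩, ?_⟩
    · intro r
      by_cases h : r = i₀
      · subst h
        simp only [dif_pos]
        rw [PowerSeries.coeff_zero_eq_constantCoeff_apply, map_mul, ← PowerSeries.coeff_zero_eq_constantCoeff_apply,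
          ← PowerSeries.coeff_zero_eq_constantCoeff_apply, hkk, hco, gp]
      · simp only [dif_neg h]
        rw [PowerSeries.coeff_zero_eq_constantCoeff_apply, map_mul, map_add, ← PowerSeries.coeff_zero_eq_constantCoeff_apply,
          ← PowerSeries.coeff_zero_eq_constantCoeff_apply, ← PowerSeries.coeff_zero_eq_constantCoeff_apply, hco,
          hx2 ⟨r, h⟩, zero_add, gp]
    · rw [Set.mem_ofPred_eq, hQm, Od_unit _ _ hwd]
      rw [ev_GP, ← hw] at hx3
      exact hx3
    · funext r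
      rcases r with r | s
      · rw [Sum.elim_inl]
        simp only [dif_pos]
        rw [hwkk, hw]
      · rw [Sum.elim_inr]
        simp only [dif_pos, dif_neg s.2]
        rw [hwkk, mul_comm w, mul_assoc, hwinv, mul_one, add_sub_cancel_right]
  · -- `φ` is regular
    rintro (r | s)
    · refine ⟨X (some i₀), C (P i₀), ?_⟩
      intro ξ _
      have h1 : ev ξ (C (P i₀) : MvPolynomial (Option σ) K) = kk := by rw [ev, algHom_C]
      rw [h1, Sum.elim_inl, ev_X, mul_assoc, mul_comm kk⁻¹, hkkm, mul_one]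
      exact ⟨hkk0, rfl⟩
    · refine ⟨X (some (s : σ)) * C (P i₀) - C (P s) * X (some i₀), X (some i₀), ?_⟩
      rintro ξ ⟨⟨c, hc, hξ⟩, -⟩
      have h1 : PowerSeries.coeff 0 (ξ i₀) ≠ 0 := by
        rw [hξ i₀]
        exact mul_ne_zero hc hKb
      obtain ⟨w, hw⟩ : ∃ w, w = ξ i₀ * kk⁻¹ := ⟨_, rfl⟩
      have hwk : w * kk = ξ i₀ := by
        rw [hw, mul_assoc, mul_comm kk⁻¹, hkkm, mul_one]
      have hw0 : PowerSeries.coeff 0 w ≠ 0 := by
        intro h0
        apply h1
        rw [← hwk, PowerSeries.coeff_zero_eq_constantCoeff_apply, map_mul,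
          ← PowerSeries.coeff_zero_eq_constantCoeff_apply, h0, zero_mul]
      have hwinv : w * w⁻¹ = 1 := PowerSeries.mul_inv_cancel _ (by
        rw [← PowerSeries.coeff_zero_eq_constantCoeff_apply]; exact hw0)
      rw [ev_X, Sum.elim_inr, ← hw]
      refine ⟨h1, ?_⟩
      have h2 : ev ξ (X (some (s : σ)) * C (P i₀) - C (P s) * X (some i₀) : MvPolynomial (Option σ) K) =
          ξ s * kk - algebraMap K (PowerSeries (AlgebraicClosure K)) (P s) * ξ i₀ := by
        rw [ev, map_sub, map_mul, map_mul, algHom_C, algHom_C, aeval_X, aeval_X]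
        rfl
      rw [h2, ← hwk]
      calc (ξ s * w⁻¹ - algebraMap K (PowerSeries (AlgebraicClosure K)) (P s)) * (w * kk) =
          ξ s * kk * (w * w⁻¹) - algebraMap K (PowerSeries (AlgebraicClosure K)) (P s) * (w * kk) := by ring
        _ = _ := by rw [hwinv, mul_one]
  · -- `ψ` is regular
    intro l
    by_cases h : l = i₀
    · refine ⟨X (some (Sum.inl ())) * C (P i₀), 1, ?_⟩
      intro x _
      have h1 : ev x (1 : MvPolynomial (Option (Rh σ i₀)) K) = 1 := by rw [ev, map_one]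
      rw [h1]
      refine ⟨by simp, ?_⟩
      rw [dif_pos h, mul_one, ev, map_mul, aeval_X, algHom_C]
      rfl
    · refine ⟨X (some (Sum.inl ())) * (X (some (Sum.inr ⟨l, h⟩)) + C (P l)), 1, ?_⟩
      intro x _
      have h1 : ev x (1 : MvPolynomial (Option (Rh σ i₀)) K) = 1 := by rw [ev, map_one]
      rw [h1]
      refine ⟨by simp, ?_⟩
      rw [dif_neg h, mul_one, ev, map_mul, map_add, aeval_X, aeval_X, algHom_C]
      rfl

end Pool.Agent.J4H55.YJ
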