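import Pool.Agent.J4H50.YJ.Cy

set_option autoImplicit false
set_option linter.unusedSectionVars false

/-! # Project YJ, (C3): the algebra near a singular point of the cone -/

namespace Pool.Agent.J4H55.YJ

open MvPolynomial
open Pool.Agent.W428.MOT
open Pool.Agent.TH192.MT (ar)
open Pool.Agent.J4H50.YP (deh)
open Pool.Agent.J4H50.YJ

section Alg

variable {K : Type} [Field K] {σ : Type} [Fintype σ] [DecidableEq σ]

theorem Od_iff {F : Type} [Field F] (x : PowerSeries F) (l : ℕ) :
    Od x l ↔ PowerSeries.X ^ l ∣ x ∧ ¬ PowerSeries.X ^ (l + 1) ∣ x := by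
  rw [PowerSeries.X_pow_dvd_iff, PowerSeries.X_pow_dvd_iff, Od]
  constructor
  · rintro ⟨h1, h2⟩
    exact ⟨h1, fun h => h2 (h l (Nat.lt_succ_self l))⟩
  · rintro ⟨h1, h2⟩
    refine ⟨h1, fun h => h2 fun m hm => ?_⟩
    rcases Nat.lt_succ_iff_lt_or_eq.1 hm with h3 | h3
    · exact h1 m h3
    · rw [h3]; exact h

theorem Od_unit {F : Type} [Field F] (u x : PowerSeries F) (hu : PowerSeries.coeff 0 u ≠ 0) (l : ℕ) :
    Od (u * x) l ↔ Od x l := by
  have h : IsUnit u := by
    rw [PowerSeries.isUnit_iff_constantCoeff, ← PowerSeries.coeff_zero_eq_constantCoeff_apply]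
    exact isUnit_iff_ne_zero.2 hu
  rw [Od_iff, Od_iff, h.dvd_mul_left, h.dvd_mul_left]

/-- the coordinates `(w, y)` -/
abbrev Rh (σ : Type) (i₀ : σ) : Type := Unit ⊕ {l : σ // l ≠ i₀}

/-- `∑_k t ^ (i (k - d)) w ^ (k - d) F_k(P + (0, y))` -/
noncomputable def Gam (F : MvPolynomial σ K) (d i : ℕ) (P : σ → K) (i₀ : σ)
    (w : PowerSeries (AlgebraicClosure K)) (y : {l : σ // l ≠ i₀} → PowerSeries (AlgebraicClosure K)) :
    PowerSeries (AlgebraicClosure K) :=
  ∑ k ∈ Finset.range (F.totalDegree + 1), PowerSeries.X ^ (i * (k - d)) * w ^ (k - d) *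
    aeval y (deh P i₀ (homogeneousComponent k F))

/-- the polynomial -/
noncomputable def GP (F : MvPolynomial σ K) (d i : ℕ) (P : σ → K) (i₀ : σ) :
    MvPolynomial (Option (Rh σ i₀)) K :=
  ∑ k ∈ Finset.range (F.totalDegree + 1), X none ^ (i * (k - d)) * X (some (Sum.inl ())) ^ (k - d) *
    rename (fun s => some (Sum.inr s)) (deh P i₀ (homogeneousComponent k F))

theorem ev_GP (F : MvPolynomial σ K) (d i : ℕ) (P : σ → K) (i₀ : σ) (x : Ac K (Rh σ i₀)) :
    ev x (GP F d i P i₀) = Gam F d i P i₀ (x (Sum.inl ())) (fun s => x (Sum.inr s)) := by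
  rw [GP, Gam, ev, map_sum]
  refine Finset.sum_congr rfl fun k _ => ?_
  rw [map_mul, map_mul, map_pow, map_pow, aeval_X, aeval_X, aeval_rename]
  rfl

theorem Gam_scale (F : MvPolynomial σ K) (d i : ℕ) (hi : 1 ≤ i) (P : σ → K) (i₀ : σ)
    (w : PowerSeries (AlgebraicClosure K)) (y : {l : σ // l ≠ i₀} → PowerSeries (AlgebraicClosure K)) :
    Gam F d (i - 1) P i₀ (PowerSeries.X * w) y = Gam F d i P i₀ w y := by
  rw [Gam, Gam]
  refine Finset.sum_congr rfl fun k _ => ?_
  rw [mul_pow, ← mul_assoc (PowerSeries.X ^ ((i - 1) * (k - d))), ← pow_add]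
  congr 3
  obtain ⟨m, rfl⟩ : ∃ m, i = m + 1 := ⟨i - 1, by omega⟩
  rw [Nat.add_sub_cancel]
  ring

theorem deh_zero (P : σ → K) (i₀ : σ) : deh P i₀ (0 : MvPolynomial σ K) = 0 := by
  rw [deh, map_zero]

/-- modulo `t ^ (i + 1)` -/
theorem Gam_low (F : MvPolynomial σ K) (d i : ℕ) (hi : 1 ≤ i) (P : σ → K) (i₀ : σ)
    (hF : ∀ j < d, homogeneousComponent j F = 0) (hD : d + 1 ≤ F.totalDegree)
    (w : PowerSeries (AlgebraicClosure K)) (y : {l : σ // l ≠ i₀} → PowerSeries (AlgebraicClosure K)) :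
    PowerSeries.X ^ (i + 1) ∣ Gam F d i P i₀ w y - (aeval y (deh P i₀ (homogeneousComponent d F)) +
      PowerSeries.X ^ i * (w * aeval y (deh P i₀ (homogeneousComponent (d + 1) F)))) := by
  rw [Gam, ← Finset.add_sum_erase _ _ (Finset.mem_range.2 (show d < F.totalDegree + 1 by omega)),
    ← Finset.add_sum_erase (Finset.erase _ _) _ (Finset.mem_erase.2 ⟨(show d + 1 ≠ d by omega),
      Finset.mem_range.2 (show d + 1 < F.totalDegree + 1 by omega)⟩)]
  rw [Nat.sub_self, Nat.mul_zero, pow_zero, pow_zero, one_mul, one_mul, Nat.add_sub_cancel_left, Nat.mul_one, pow_one]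
  have h : ∀ a b c : PowerSeries (AlgebraicClosure K), a + (PowerSeries.X ^ i * w * b + c) - (a + PowerSeries.X ^ i * (w * b)) = c := by
    intro a b c; ring
  rw [h]
  refine Finset.dvd_sum fun k hk => ?_
  have h1 := (Finset.mem_erase.1 hk).1
  have h2 := (Finset.mem_erase.1 (Finset.mem_erase.1 hk).2).1
  rcases Nat.lt_or_ge k d with h3 | h3
  · rw [hF k h3, deh_zero, map_zero, mul_zero]
    exact dvd_zero _
  · refine Dvd.dvd.mul_right (Dvd.dvd.mul_right (pow_dvd_pow _ ?_) _) _
    obtain ⟨e, he⟩ : ∃ e, k - d = e + 2 := ⟨k - d - 2, by omega⟩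
    rw [he]
    nlinarith

/-- change of one coefficient of `w` -/
theorem Gam_shift (F : MvPolynomial σ K) (d i : ℕ) (hi : 1 ≤ i) (P : σ → K) (i₀ : σ)
    (hD : d + 1 ≤ F.totalDegree) (k : ℕ) (c : AlgebraicClosure K)
    (w : PowerSeries (AlgebraicClosure K)) (y : {l : σ // l ≠ i₀} → PowerSeries (AlgebraicClosure K)) :
    PowerSeries.X ^ (i + k + 1) ∣ Gam F d i P i₀ (w + PowerSeries.monomial k c) y - (Gam F d i P i₀ w y +
      PowerSeries.X ^ (i + k) * (PowerSeries.C c * aeval y (deh P i₀ (homogeneousComponent (d + 1) F)))) := by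
  have hb : PowerSeries.monomial k c = PowerSeries.X ^ k * PowerSeries.C c := by
    rw [PowerSeries.monomial_eq_C_mul_X_pow, mul_comm]
  have h : Gam F d i P i₀ (w + PowerSeries.monomial k c) y - Gam F d i P i₀ w y =
      ∑ m ∈ Finset.range (F.totalDegree + 1), PowerSeries.X ^ (i * (m - d)) *
        ((w + PowerSeries.monomial k c) ^ (m - d) - w ^ (m - d)) * aeval y (deh P i₀ (homogeneousComponent m F)) := by
    rw [Gam, Gam, ← Finset.sum_sub_distrib]
    refine Finset.sum_congr rfl fun m _ => ?_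
    ring
  rw [← sub_sub, h, ← Finset.add_sum_erase _ _ (Finset.mem_range.2 (show d + 1 < F.totalDegree + 1 by omega)),
    Nat.add_sub_cancel_left, pow_one, pow_one, add_sub_cancel_left, Nat.mul_one, hb]
  have h' : ∀ b c' : PowerSeries (AlgebraicClosure K), PowerSeries.X ^ i * (PowerSeries.X ^ k * PowerSeries.C c) * b + c' -
      PowerSeries.X ^ (i + k) * (PowerSeries.C c * b) = c' := by
    intro b c'; ring
  rw [h']
  refine Finset.dvd_sum fun m hm => ?_
  have h1 := (Finset.mem_erase.1 hm).1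
  rcases Nat.lt_or_ge d m with h3 | h3
  · refine Dvd.dvd.mul_right ?_ _
    have h4 : PowerSeries.X ^ k ∣ (w + PowerSeries.X ^ k * PowerSeries.C c) ^ (m - d) - w ^ (m - d) := by
      refine Dvd.dvd.trans ?_ (sub_dvd_pow_sub_pow _ _ _)
      rw [add_sub_cancel_left]
      exact Dvd.intro _ rfl
    have h5 := mul_dvd_mul (dvd_refl (PowerSeries.X ^ (i * (m - d)) : PowerSeries (AlgebraicClosure K))) h4
    rw [← pow_add] at h5
    refine (pow_dvd_pow _ ?_).trans h5
    obtain ⟨e, he⟩ : ∃ e, m - d = e + 2 := ⟨m - d - 2, by omega⟩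
    rw [he]
    nlinarith
  · rw [Nat.sub_eq_zero_of_le h3, pow_zero, pow_zero, sub_self, mul_zero, zero_mul]
    exact dvd_zero _

theorem coeff_zero_aeval {τ : Type} (y : τ → PowerSeries (AlgebraicClosure K))
    (hy : ∀ s, PowerSeries.coeff 0 (y s) = 0) (f : MvPolynomial τ K) :
    PowerSeries.coeff 0 (aeval y f) = algebraMap K (AlgebraicClosure K) (constantCoeff f) := by
  have h : ∀ g : MvPolynomial τ K, PowerSeries.constantCoeff (aeval y g) =
      algebraMap K (AlgebraicClosure K) (constantCoeff g) := by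
    intro g
    induction g using MvPolynomial.induction_on with
    | C a =>
      rw [algHom_C, constantCoeff_C]
      simp [PowerSeries.algebraMap_apply]
    | add p q hp hq => rw [map_add, map_add, hp, hq, map_add, map_add]
    | mul_X p s hp =>
      rw [map_mul, map_mul, aeval_X, map_mul, constantCoeff_X, mul_zero, map_zero,
        ← PowerSeries.coeff_zero_eq_constantCoeff_apply, ← PowerSeries.coeff_zero_eq_constantCoeff_apply, hy s, mul_zero]
  rw [PowerSeries.coeff_zero_eq_constantCoeff_apply, h]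

theorem constantCoeff_deh (P : σ → K) (i₀ : σ) (f : MvPolynomial σ K) :
    constantCoeff (deh P i₀ f) = eval P f := by
  rw [deh]
  induction f using MvPolynomial.induction_on with
  | C a => rw [algHom_C, eval_C]; simp
  | add p q hp hq => rw [map_add, map_add, hp, hq, map_add]
  | mul_X p s hp =>
    rw [map_mul, map_mul, hp, aeval_X, map_mul, eval_X]
    by_cases h : s = i₀
    · rw [dif_pos h, constantCoeff_C, h]
    · rw [dif_neg h, map_add, constantCoeff_X, constantCoeff_C, zero_add]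

/-- homogeneity -/
theorem aeval_hom {B : Type} [CommRing B] [Algebra K B] (f : MvPolynomial σ K) (k : ℕ) (hf : f.IsHomogeneous k)
    (w : B) (η : σ → B) : aeval (fun l => w * η l) f = w ^ k * aeval η f := by
  rw [aeval_def, aeval_def, eval₂_eq', eval₂_eq', Finset.mul_sum]
  refine Finset.sum_congr rfl fun s hs => ?_
  have h1 : ∑ l, s l = k := by
    have h2 := hf (mem_support_iff.1 hs)
    rw [← h2, Finsupp.weight_apply, Finsupp.sum_fintype]
    · simp
    · intro l; simp
  simp only [mul_pow]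
  rw [Finset.prod_mul_distrib, Finset.prod_pow_eq_pow_sum, h1]
  ring

theorem Qm_eq (F : MvPolynomial σ K) (d i : ℕ) (P : σ → K) (i₀ : σ)
    (hF : ∀ j < d, homogeneousComponent j F = 0) (ξ : Ac K σ)
    (w : PowerSeries (AlgebraicClosure K)) (y : {l : σ // l ≠ i₀} → PowerSeries (AlgebraicClosure K))
    (h0 : ξ i₀ = w * algebraMap K (PowerSeries (AlgebraicClosure K)) (P i₀))
    (h1 : ∀ s : {l : σ // l ≠ i₀}, ξ s = w * (y s + algebraMap K (PowerSeries (AlgebraicClosure K)) (P s))) :
    Qm F d i ξ = w ^ d * Gam F d i P i₀ w y := by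
  rw [Qm, Gam, Finset.mul_sum]
  refine Finset.sum_congr rfl fun k _ => ?_
  rcases Nat.lt_or_ge k d with h3 | h3
  · rw [hF k h3, deh_zero, map_zero, map_zero, mul_zero, mul_zero, mul_zero]
  · have e1 : ξ = fun l => w * (if h : l = i₀ then algebraMap K (PowerSeries (AlgebraicClosure K)) (P i₀)
        else y ⟨l, h⟩ + algebraMap K (PowerSeries (AlgebraicClosure K)) (P l)) := by
      funext l
      by_cases h : l = i₀
      · rw [dif_pos h, h, h0]
      · rw [dif_neg h]
        exact h1 ⟨l, h⟩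
    have e2 : aeval y (deh P i₀ (homogeneousComponent k F)) =
        aeval (fun l => if h : l = i₀ then algebraMap K (PowerSeries (AlgebraicClosure K)) (P i₀)
          else y ⟨l, h⟩ + algebraMap K (PowerSeries (AlgebraicClosure K)) (P l)) (homogeneousComponent k F) := by
      rw [deh, comp_aeval_apply]
      congr 2
      funext l
      by_cases h : l = i₀
      · rw [dif_pos h, dif_pos h, algHom_C]
      · rw [dif_neg h, dif_neg h, map_add, aeval_X, algHom_C]
    rw [e2, e1, aeval_hom _ k (homogeneousComponent_isHomogeneous k F)]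
    have e3 : w ^ k = w ^ d * w ^ (k - d) := by
      rw [← pow_add]
      congr 1
      omega
    rw [e3]
    ring

end Alg

end Pool.Agent.J4H55.YJ
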